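import Pool.Agent.H99.DPC.Frm
import Pool.Agent.H35.DPC.Row

/-!
# The double plateau: frames and the row of the position
-/

set_option autoImplicit false

namespace Pool.S6C

open Finset Real
open Pool.Agent.H49.Ent Pool.Agent.H32.Dense Pool.STK Pool.KA Pool.KSAT Pool.K2S Pool.PB Pool.KS6
  Pool.Sel51

/-- **(T2 + T3)** -/
theorem dfr_thm99 (hLD : LDOneStmt) : DFrStmt := by
  intro S a R h₁ i₀ c s₂ r D σ hC act K W v₁ t e₁ Q₀ P g v₀ a₀ α hL N M ϖ ε hϖ hε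
  have hc := hC.c0
  obtain ⟨L₀, hL₀, hrow⟩ := dfc_of hLD hC hL (δ := c / 2 * Real.log 2) hϖ hε
    (mul_pos (by linarith) (Real.log_pos (by norm_num)))
  refine ⟨1, L₀, one_pos, hL₀, fun rc pe x L e G hLL _ hxL hZ u₀ hul hur => ?_⟩
  obtain ⟨η₀, hη₀, h1⟩ := hrow rc pe x L e G hLL hxL hZ u₀ hul hur
  obtain ⟨η₁, hη₁, h2⟩ := dfr_frames hC hL hZ hul hur
  have hη : 0 < min η₀ η₁ := lt_min hη₀ hη₁
  refine Clp.mono (J₂ := 0) ((h1 _ hη (min_le_left _ _) N M).and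
    (h2 _ hη (min_le_right _ _) N M x)) ?_
  rintro J - F A ⟨k1, k2⟩ w₀ q V H X hD
  obtain ⟨sg, a', s', t', al, nu, kk, bb, hsg, hF, hor⟩ := k2 w₀ q V H X hD
  have hbd : ∀ ω, A ω → |a' ω| ≤ 8 ∧ |s' ω| ≤ 8 ∧ |t' ω| ≤ 8 := fun ω hω => by
    obtain ⟨b1, b2, b3⟩ := hF.bd ω hω
    exact ⟨b1.trans (by norm_num), b2.trans (by norm_num), b3⟩
  refine ⟨sg, a', s', t', al, nu, kk, bb, hsg, hF, fun j hj k hk E hE hPE => ?_⟩
  have h3 := k1 w₀ q V H X hD sg hF.bij hsg a' s' t' hbd (hor.imp id fun h => ⟨h.2.1, h.2.2.1⟩)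
    j hj k hk E hE hPE
  refine h3.trans (le_of_eq ?_)
  ring

end Pool.S6C
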