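import Pool.Agent.H84.DPC.Stmts
import Pool.Agent.H62.S6.FF
import Pool.Agent.H19.S6H.Zon
import Pool.Agent.H99.S6H.Core

/-!
# The double plateau, class half: the frames

The frame is the natural label of one window `u₀`. If the planks of this window are not thinner than
the window, the frame is zero, and the fans at exact points are straight.
-/

set_option autoImplicit false

namespace Pool.S6C

open Finset Real
open Pool.Agent.H49.Ent Pool.Agent.H32.Dense Pool.STK Pool.KA Pool.KSAT Pool.K2S Pool.PB Pool.KS6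
  Pool.Sel51 Pool.S6F

section one

variable {J : ℕ} {F : Fam 3 J} {A : F.Ω → Prop} {i₀ iu iN : Fin 3} {Pu' : ℕ} {w V' T H' : ℕ → ℕ}
  {e n : (Fin 3 → ℤ) × (ℕ × F.ζ) → Fin 3 → ℝ} {z : ℕ → F.Ω → Pln}

/-- **The frames from one natural label.** -/
theorem dfr_lab (h : NLc F A i₀ iu iN 0 Pu' w V' T H' e n z) {PN' : ℕ}
    (hb : SnG F A i₀ iu iN PN' e (z 0)) {V H Pu PN : ℕ} (hV : V ≤ V' 0)
    (hT : w 0 + (V + H) ≤ T 0 + 3) (hPu : Pu ≤ Pu') (hPN : PN ≤ PN') :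
    ∃ al nu kk bb : (Fin 3 → ℤ) × (ℕ × F.ζ) → ℝ,
      DFr F A ![i₀, iu, iN] (w 0) V H Pu PN (fra (z 0)) (frs (z 0)) (frt (z 0)) al nu kk bb := by
  obtain ⟨b, hb⟩ := hb
  obtain ⟨φ, hφ⟩ := h.zp 0 le_rfl
  obtain ⟨ψ, hψ⟩ := h.zs 0 le_rfl
  have hz : ∀ ω, A ω → z 0 ω = φ (Fam.pt F ω) := hφ
  have p1 : ∀ {P P' : ℕ}, P ≤ P' → (1 : ℝ) / 2 ^ P' ≤ 8 / 2 ^ P := fun {P P'} hP => by
    have h1 := pow_dec zero_le_one hP
    have h2 : (1 : ℝ) / 2 ^ P ≤ 8 / 2 ^ P :=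
      div_le_div_of_nonneg_right (by norm_num) (by positivity)
    exact h1.trans h2
  refine ⟨fun u => e u iu, fun u => n u iu, fun u => e u iN + (φ u).s * e u iu + (φ u).c, b,
    bij_of h.hi, fun ω ω' hs => ?_, fun ω ω' hω hω' hp => ?_, fun ω hω => ?_, fun ω hω => ?_,
    fun ω hω => ?_, fun ω hω => ?_, fun ω hω => ?_, fun ω hω => ?_, fun u => n u iN,
    fun ω hω => ?_⟩
  · unfold fra frs frt
    rw [hψ ω, hψ ω', hs]
    exact ⟨rfl, rfl, rfl⟩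
  · unfold fra frs frt
    rw [hz ω hω, hz ω' hω', hp]
    exact ⟨rfl, rfl, rfl⟩
  · have I := h.inc 0 le_rfl ω hω
    unfold fra frs frt
    rw [abs_neg, abs_neg]
    exact ⟨I.e_le.trans (by norm_num), I.s_le, I.c_le.trans (by norm_num)⟩
  · exact (h.ln ω hω iu).trans (p1 hPu)
  · have k := (hb ω hω).trans (p1 hPN)
    unfold frs frt
    rw [← hz ω hω]
    have e1 : F.d ω iN - -(z 0 ω).s * F.d ω iu - -(z 0 ω).c * F.d ω i₀ - b (Fam.pt F ω) -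
        (e (Fam.pt F ω) iN + (z 0 ω).s * e (Fam.pt F ω) iu + (z 0 ω).c) * F.d ω i₀ =
        (F.d ω iN - e (Fam.pt F ω) iN * F.d ω i₀) +
      (z 0 ω).s * (F.d ω iu - e (Fam.pt F ω) iu * F.d ω i₀) - b (Fam.pt F ω) := by ring
    show |F.d ω iN - -(z 0 ω).s * F.d ω iu - -(z 0 ω).c * F.d ω i₀ - b (Fam.pt F ω) -
        (e (Fam.pt F ω) iN + (z 0 ω).s * e (Fam.pt F ω) iu + (z 0 ω).c) * F.d ω i₀| ≤ _
    rw [e1]
    exact k
  · have k := h.ze 0 le_rfl ω hω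
    unfold fra
    rw [abs_sub_comm]
    refine k.trans ((pow_dec (by norm_num) hV).trans ?_)
    exact div_le_div_of_nonneg_right (by norm_num) (by positivity)
  · have k := h.zc 0 le_rfl ω hω
    rw [← hz ω hω]
    have e1 : e (Fam.pt F ω) iN + (z 0 ω).s * e (Fam.pt F ω) iu + (z 0 ω).c =
      (z 0 ω).c + (z 0 ω).s * e (Fam.pt F ω) iu + e (Fam.pt F ω) iN := by ring
    rw [e1]
    refine k.trans ?_
    rw [div_le_div_iff₀ (by positivity) (by positivity), ← pow_add]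
    calc (2 : ℝ) ^ (w 0 + (V + H)) ≤ 2 ^ (T 0 + 3) := pow_le_pow_right₀ (by norm_num) hT
      _ = 8 * 2 ^ T 0 := by rw [pow_add]; ring
  · have g1 := h.eb ω hω iu
    have g2 := h.eb ω hω iN
    unfold frs frt
    rw [← hz ω hω]
    have e1 : -(z 0 ω).s * e (Fam.pt F ω) iu +
      (e (Fam.pt F ω) iN + (z 0 ω).s * e (Fam.pt F ω) iu + (z 0 ω).c + -(z 0 ω).c) =
      e (Fam.pt F ω) iN := by ring
    rw [e1]
    exact ⟨g1.trans (by norm_num), g2.trans (by norm_num)⟩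
  · have k := (h.ln ω hω iN).trans (p1 hPu)
    unfold frs frt
    rw [← hz ω hω]
    have e1 : -(z 0 ω).s * e (Fam.pt F ω) iu +
      (e (Fam.pt F ω) iN + (z 0 ω).s * e (Fam.pt F ω) iu + (z 0 ω).c + -(z 0 ω).c) =
      e (Fam.pt F ω) iN := by ring
    rw [e1]
    exact k

/-- **The zero frame.** -/
theorem dfr_zero {g : ℕ} (hon : OnL i₀ (1 / 2 ^ g) (Fam.pt F) F.d A e n)
    (hi : ∀ j : Fin 3, j = i₀ ∨ j = iu ∨ j = iN)
    (he : ∀ ω, A ω → ∀ j, |e (Fam.pt F ω) j| ≤ 9 / 8) {u Pu PN : ℕ} (hPu : Pu ≤ g) (hPN : PN ≤ g) :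
    ∃ al nu kk bb : (Fin 3 → ℤ) × (ℕ × F.ζ) → ℝ,
      DFr F A ![i₀, iu, iN] u 0 0 Pu PN (fun _ => 0) (fun _ => 0) (fun _ => 0) al nu kk bb := by
  have p1 : ∀ {P : ℕ}, P ≤ g → (1 : ℝ) / 2 ^ g ≤ 8 / 2 ^ P := fun {P} hP => by
    have h1 := pow_dec zero_le_one hP
    have h2 : (1 : ℝ) / 2 ^ P ≤ 8 / 2 ^ P :=
      div_le_div_of_nonneg_right (by norm_num) (by positivity)
    exact h1.trans h2
  refine ⟨fun u => e u iu, fun u => n u iu, fun u => e u iN, fun u => n u iN,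
    bij_of hi, fun ω ω' hs => ⟨rfl, rfl, rfl⟩, fun ω ω' hω hω' hp => ⟨rfl, rfl, rfl⟩,
    fun ω hω => ?_, fun ω hω => ?_,
    fun ω hω => ?_, fun ω hω => ?_, fun ω hω => ?_, fun ω hω => ?_, fun u => n u iN,
    fun ω hω => ?_⟩
  · rw [abs_zero]
    norm_num
  · exact (hon ω hω iu).trans (p1 hPu)
  · have k := (hon ω hω iN).trans (p1 hPN)
    have e1 : F.d ω iN - 0 * F.d ω iu - 0 * F.d ω i₀ - n (Fam.pt F ω) iN -
        e (Fam.pt F ω) iN * F.d ω i₀ =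
        F.d ω iN - e (Fam.pt F ω) iN * F.d ω i₀ - n (Fam.pt F ω) iN := by ring
    show |F.d ω iN - 0 * F.d ω iu - 0 * F.d ω i₀ - n (Fam.pt F ω) iN -
        e (Fam.pt F ω) iN * F.d ω i₀| ≤ _
    rw [e1]
    exact k
  · rw [sub_zero, pow_zero, div_one]
    exact (he ω hω iu).trans (by norm_num)
  · rw [add_zero, pow_zero, div_one]
    exact (he ω hω iN).trans (by norm_num)
  · rw [zero_mul, zero_add, add_zero]
    exact ⟨(he ω hω iu).trans (by norm_num), (he ω hω iN).trans (by norm_num)⟩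
  · rw [zero_mul, zero_add, add_zero]
    exact (hon ω hω iN).trans (p1 hPu)

end one

section cls

variable {S : PCl 3} {a R h₁ : ℝ} {i₀ : Fin 3} {c s₂ : ℝ} {r : ℝ → ℝ} {D : Set ℝ} {σ : ℝ → Row}

/-- The fans at exact points are straight, with bounded slopes. -/
def FanP (i₀ : Fin 3) (g : ℕ) {J : ℕ} (F : Fam 3 J) (A : F.Ω → Prop) : Prop :=
  ∃ e n : (Fin 3 → ℤ) × (ℕ × F.ζ) → Fin 3 → ℝ, OnL i₀ (1 / 2 ^ g) (Fam.pt F) F.d A e n ∧
    ∀ ω, A ω → ∀ j, |e (Fam.pt F ω) j| ≤ 9 / 8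

theorem FanP.hered (i₀ : Fin 3) (g : ℕ) {J : ℕ} (F : Fam 3 J) : Hered (FanP i₀ g F) := by
  rintro A B hB ⟨e, n, h1, h2⟩
  exact ⟨e, n, h1.sub hB, fun ω hω => h2 ω (hB ω hω)⟩

/-- **Straight fans with bounded slopes.** -/
theorem fan_clp (hC : Cs S a R h₁ i₀ c s₂ r D σ) {g : ℝ} (hg0 : 0 < g) (hg : g < (σ 1).pi) :
    Clp S (fun J F A => FanP i₀ ⌊g * J⌋₊ F A) := by
  classical
  obtain ⟨x, hx⟩ : ∃ x, x = min (g / 4) (min h₁ 1 / 4) := ⟨_, rfl⟩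
  have hx0 : 0 < x := by
    rw [hx]
    have := lt_min hC.h₁0 one_pos
    exact lt_min (by linarith) (by linarith)
  have hxg : x ≤ g / 4 := by rw [hx]; exact min_le_left _ _
  have hx1 : x ≤ h₁ / 4 := by
    rw [hx]
    refine (min_le_right _ _).trans ?_
    have := min_le_left h₁ 1
    linarith
  have hx2 : x ≤ 1 / 4 := by
    rw [hx]
    refine (min_le_right _ _).trans ?_
    have := min_le_right h₁ 1
    linarith
  have c3 := spr_clp hC hx0 hx1 hx2 (g := g) (by linarith) hg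
  refine Clp.step ⟨1, fun J F _ => FanP i₀ ⌊g * J⌋₊ F, fun J F _ => FanP.hered _ _ _⟩
    fun κ hκ => ?_
  obtain ⟨J₁, hJ₁⟩ := Pool.S6K.exp_small (κ := κ) (C := 2) hκ (by norm_num)
  refine Clp.mono (J₂ := J₁) c3 ?_
  rintro J hJ F A ⟨e, n, hL, B, hB, hPB, -, hb⟩ hSb
  exact Pool.S6K.stb_part (hSb 0) hB (by norm_num) hPB (hJ₁ J hJ) (Pe_nonneg F.isLaw A)
    ⟨e, n, hL.sub hB, hb⟩

variable {act rc : ℚ → ℝ} {K : Set ℝ} {W : ℝ → ℝ} {v₁ t : ℚ}
  {e₁ Q₀ P g v₀ a₀ α pe L e G : ℝ}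

/-- The numbers of the label of the window `u₀`. -/
theorem Zod.num (hC : Cs S a R h₁ i₀ c s₂ r D σ)
    (hZ : Zod σ act rc v₁ t e₁ P g (W g) v₀ a₀ α pe L e G) {u₀ : ℚ}
    (h1 : W g - L / 4 ≤ u₀) (h2 : (u₀ : ℝ) ≤ W g) :
    (0 : ℝ) < u₀ ∧ (u₀ : ℝ) < v₁ ∧ |(σ 1).rot u₀ - v₀| ≤ e ∧
      |(σ 1).th u₀ - g - ((u₀ : ℝ) - W g)| ≤ e ∧ u₀ + (σ 1).rot u₀ ≤ (σ 1).th u₀ := by
  have g9 := hZ.g9
  have g8 := hZ.g8
  have g7 := hZ.g7
  have g6 := hZ.g6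
  have hLG := hZ.LG
  have he := hZ.e0
  have heL := hZ.eL
  have hL0 : 0 < L := by linarith
  have k0 : (0 : ℝ) < u₀ := by linarith
  obtain ⟨k1, k2, -⟩ := hZ.aff u₀ (by
    rw [abs_le]
    constructor <;> linarith)
  have k3 : (u₀ : ℝ) ≤ 1 := by
    have := hZ.vR
    have := hZ.v0
    linarith
  have hR := hC.row 1 one_pos le_rfl hC.D1
  have k4 := trv hC le_rfl hR u₀ (by exact_mod_cast k0.le) k3
  refine ⟨k0, by linarith, k1, k2, ?_⟩
  rw [abs_le] at k2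
  rcases min_le_iff.1 k4 with h | h
  · exact h
  · linarith [k2.2]

/-- **(T2)** The frames exist, with the natural label of the window `u₀`, unless the planks of this
window are trivial; then the frame is zero. -/
theorem dfr_frames (hC : Cs S a R h₁ i₀ c s₂ r D σ)
    (hL : Loc S i₀ c s₂ r D σ act K W v₁ t e₁ Q₀ P g v₀ 0 0 a₀ α)
    (hZ : Zod σ act rc v₁ t e₁ P g (W g) v₀ a₀ α pe L e G) {u₀ : ℚ}
    (h1 : W g - L / 4 ≤ u₀) (h2 : (u₀ : ℝ) ≤ W g) :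
    ∃ η₀ : ℝ, 0 < η₀ ∧ ∀ η : ℝ, 0 < η → η ≤ η₀ → ∀ (N M : ℕ) (x : ℝ),
    Clp S (fun J F A => ∀ w₀ q V H X : ℕ, DLv J N M P g (W g) v₀ x L e u₀ w₀ q V H X →
      ∃ (sg : Fin 3 → Fin 3) (a s t : F.Ω → ℝ) (al nu kk bb : (Fin 3 → ℤ) × (ℕ × F.ζ) → ℝ),
        sg 0 = i₀ ∧ DFr F A sg ⌊(u₀ : ℝ) * J⌋₊ V H ⌊(pe + G / 2) * J⌋₊
          ⌊(P - W g + G / 2) * J⌋₊ a s t al nu kk bb ∧
        ((∃ (z : F.Ω → Pln) (E : ℝ), NL F A sg ⌊(u₀ : ℝ) * J⌋₊ ⌊((σ 1).rot u₀ - η) * J⌋₊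
            ⌊((σ 1).th u₀ - η) * J⌋₊ z ∧
          (∀ ω ω', A ω → A ω' → z ω = z ω' → a ω = a ω' ∧ s ω = s ω' ∧ t ω = t ω') ∧
          (∀ ω, A ω → |a ω| ≤ 8 ∧ |s ω| ≤ 8 ∧ |t ω| ≤ 8) ∧ 1 ≤ E ∧ Real.log E ≤ η * J ∧
          Fcl F A u₀ ((u₀ : ℝ) + (σ 1).rot u₀) ((σ 1).th u₀) E z a s t) ∨
        (g - W g ≤ e ∧ V = 0 ∧ H = 0 ∧ ∀ ω, a ω = 0 ∧ s ω = 0 ∧ t ω = 0))) := by
  obtain ⟨k0, k1, k2, k3, k4⟩ := hZ.num hC h1 h2
  rw [abs_le] at k2 k3
  have g1 := hZ.g1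
  have g2 := hZ.g2
  have g3 := hZ.g3
  have g5 := hZ.g5
  have g8 := hZ.g8
  have hLG := hZ.LG
  have he := hZ.e0
  have heL := hZ.eL
  have hv0 := hZ.v0
  have hvR := hZ.vR
  have hL0 : 0 < L := by linarith
  have hG0 : 0 < G := by linarith
  rcases le_or_gt ((σ 1).th u₀) u₀ with hth | hth
  · -- trivial planks
    have hRe : g - W g ≤ e := by linarith [k3.1]
    refine ⟨1, one_pos, fun η hη _ N M x => ?_⟩
    refine Clp.mono (J₂ := 0) (fan_clp hC (g := pe + 3 / 4 * G) (by linarith) (by linarith)) ?_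
    rintro J - F A ⟨ee, n, hon, hb⟩ w₀ q V H X hD
    have hJ0 : (0 : ℝ) ≤ J := Nat.cast_nonneg J
    have hV : V = 0 := by
      have h3 := hD.vu
      have h4 : (v₀ - 10 * e) * J ≤ 0 := mul_nonpos_of_nonpos_of_nonneg (by linarith) hJ0
      rw [max_eq_left h4] at h3
      have : V ≤ 0 := by exact_mod_cast h3
      omega
    have hH : H = 0 := by
      have h3 := hD.hu
      have h4 : (g - W g - v₀ - 10 * e) * J ≤ 0 := mul_nonpos_of_nonpos_of_nonneg (by linarith) hJ0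
      rw [max_eq_left h4] at h3
      have : H ≤ 0 := by exact_mod_cast h3
      omega
    obtain ⟨iu, iN, hi⟩ : ∃ iu iN : Fin 3, ∀ j : Fin 3, j = i₀ ∨ j = iu ∨ j = iN := by
      fin_cases i₀
      · exact ⟨1, 2, by decide⟩
      · exact ⟨0, 2, by decide⟩
      · exact ⟨0, 1, by decide⟩
    obtain ⟨al, nu, kk, bb, hF⟩ := dfr_zero (iu := iu) (iN := iN) hon hi hb
      (u := ⌊(u₀ : ℝ) * J⌋₊) (Pu := ⌊(pe + G / 2) * J⌋₊) (PN := ⌊(P - W g + G / 2) * J⌋₊)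
      (Nat.floor_le_floor (mul_le_mul_of_nonneg_right (by linarith) hJ0))
      (Nat.floor_le_floor (mul_le_mul_of_nonneg_right (by linarith) hJ0))
    rw [hV, hH]
    exact ⟨_, _, _, _, al, nu, kk, bb, rfl, hF, Or.inr ⟨hRe, rfl, rfl, fun _ => ⟨rfl, rfl, rfl⟩⟩⟩
  · -- the natural label
    refine ⟨min e (((σ 1).th u₀ - u₀) / 2), lt_min he (by linarith), fun η hη hη₀ N M x => ?_⟩
    have hηe : η ≤ e := hη₀.trans (min_le_left _ _)
    have hηt : η ≤ ((σ 1).th u₀ - u₀) / 2 := hη₀.trans (min_le_right _ _)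
    have hnl := nl_adm hC hL.adm 0 (fun _ => u₀) (fun _ => (σ 1).rot u₀ - η)
      (fun _ => (σ 1).th u₀ - η) (fun _ => 0) (fun _ => P - W g + 3 / 4 * G)
      (g := pe + 3 / 4 * G)
      (fun _ _ => le_rfl) (fun _ _ => by exact_mod_cast k0.le) (fun _ _ => by exact_mod_cast k1.le)
      (by linarith) (fun _ _ => by linarith) (fun _ _ => by linarith)
      (fun _ _ => by linarith) (fun _ _ => by linarith) (fun _ h => absurd h (Nat.not_lt_zero _))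
      (fun _ h => absurd h (Nat.not_lt_zero _)) (fun _ h => absurd h (Nat.not_lt_zero _))
      (fun _ _ => by linarith) (fun _ _ => by linarith) (fun _ _ => by linarith [k3.1])
    refine Clp.mono (J₂ := 0) hnl ?_
    rintro J - F A ⟨iu, iN, ee, n, z, hN, hG⟩ w₀ q V H X hD
    have hJ0 : (0 : ℝ) ≤ J := Nat.cast_nonneg J
    have mulJ : ∀ {p q : ℝ}, p ≤ q → p * J ≤ q * J := fun h => mul_le_mul_of_nonneg_right h hJ0
    have hV : V ≤ ⌊((σ 1).rot u₀ - η) * J⌋₊ := by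
      have h3 := hD.vu
      rcases le_total ((v₀ - 10 * e) * J) 0 with h4 | h4
      · rw [max_eq_left h4] at h3
        have : V ≤ 0 := by exact_mod_cast h3
        omega
      · rw [max_eq_right h4] at h3
        refine Nat.le_floor (h3.trans (mulJ ?_))
        linarith [k2.1]
    have hT : ⌊(u₀ : ℝ) * J⌋₊ + (V + H) ≤ ⌊((σ 1).th u₀ - η) * J⌋₊ + 3 := by
      have h3 := hD.vu
      have h4 := hD.hu
      have h5 : (⌊(u₀ : ℝ) * J⌋₊ : ℝ) ≤ u₀ * J := Nat.floor_le (by positivity)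
      have h6 := Nat.lt_floor_add_one (((σ 1).th u₀ - η) * J)
      have e0 : 0 ≤ e * J := by positivity
      have b1 := mulJ (show (u₀ : ℝ) ≤ (σ 1).th u₀ - η by linarith)
      have b2 := mulJ (show (u₀ : ℝ) + (g - W g) ≤ (σ 1).th u₀ - η + 2 * e by linarith [k3.1])
      have b3 := mulJ hv0
      have b4 := mulJ hvR
      have h7 : (V : ℝ) + H + u₀ * J ≤ ((σ 1).th u₀ - η) * J := by
        rcases le_total ((v₀ - 10 * e) * J) 0 with h8 | h8 <;>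
          rcases le_total ((g - W g - v₀ - 10 * e) * J) 0 with h9 | h9
        · rw [max_eq_left h8] at h3
          rw [max_eq_left h9] at h4
          linarith
        · rw [max_eq_left h8] at h3
          rw [max_eq_right h9] at h4
          linarith
        · rw [max_eq_right h8] at h3
          rw [max_eq_left h9] at h4
          linarith
        · rw [max_eq_right h8] at h3
          rw [max_eq_right h9] at h4
          linarith
      have h8 : ((⌊(u₀ : ℝ) * J⌋₊ + (V + H) : ℕ) : ℝ) <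
          ((⌊((σ 1).th u₀ - η) * J⌋₊ + 1 : ℕ) : ℝ) := by
        push_cast
        linarith
      have h9 : ⌊(u₀ : ℝ) * J⌋₊ + (V + H) < ⌊((σ 1).th u₀ - η) * J⌋₊ + 1 := by exact_mod_cast h8
      omega
    obtain ⟨al, nu, kk, bb, hF⟩ := dfr_lab hN (hG 0 le_rfl) (V := V) (H := H)
      (Pu := ⌊(pe + G / 2) * J⌋₊) (PN := ⌊(P - W g + G / 2) * J⌋₊) hV hT
      (Nat.floor_le_floor (mulJ (by linarith))) (Nat.floor_le_floor (mulJ (by linarith)))
    refine ⟨_, _, _, _, al, nu, kk, bb, rfl, hF, Or.inl ⟨z 0, 1, nl_weak hN le_rfl le_rfl le_rfl,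
      fun ω ω' _ _ hz => ?_, fun ω hω => ?_, le_rfl, ?_, fun ω hω => ?_⟩⟩
    · unfold fra frs frt
      rw [hz]
      exact ⟨rfl, rfl, rfl⟩
    · have I := hN.inc 0 le_rfl ω hω
      unfold fra frs frt
      rw [abs_neg, abs_neg]
      exact ⟨I.e_le.trans (by norm_num), I.s_le.trans (by norm_num), I.c_le.trans (by norm_num)⟩
    · rw [Real.log_one]
      positivity
    · unfold Fnr
      rw [sub_self, sub_self, sub_self, zero_mul, zero_add, abs_zero]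
      exact ⟨by positivity, by positivity, by positivity⟩

end cls

end Pool.S6C
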